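import Pool.Agent.MP_bd94e8_al.H89.Spec

/-!
Arrows between points outside the valued vertices form a strict order.
-/

set_option autoImplicit false
set_option linter.unusedSectionVars false

namespace Pool.Agent.MP_bd94e8_al.H89

open Module Function

namespace OrdA

variable {k F : Type} [Field k] [Field F] [Algebra k F] {Pt ι : Type} [Fintype Pt]
  [DecidableEq Pt] {P : Prob k F Pt ι Unit} {val : Set ι} {ht : Pt → ℕ}

theorem mul_e_pos (a : Matrix Pt Pt F) {j : ι} (r : Pt) {y : Pt} (h : P.vt y = j) :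
    (a * P.e j) r y = a r y := by
  rw [Matrix.mul_apply, Finset.sum_eq_single y (fun x _ hx => by rw [P.e_off j hx, mul_zero])
    (by simp), P.e_pos _ h]
  simp

theorem mul_e_neg (a : Matrix Pt Pt F) {j : ι} (r : Pt) {y : Pt} (h : P.vt y ≠ j) :
    (a * P.e j) r y = 0 := by
  rw [Matrix.mul_apply]
  exact Finset.sum_eq_zero fun x _ => by rw [P.e_neg _ h, mul_zero]

theorem mem_eq_zero (a b : Matrix Pt Pt F) (j : ι) (r p : Pt)
    (h : ∀ y, P.vt y = j → a r y * b y p = 0) : (a * P.e j * b) r p = 0 := by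
  rw [Matrix.mul_apply]
  refine Finset.sum_eq_zero fun y _ => ?_
  by_cases e : P.vt y = j
  · rw [mul_e_pos a r e, h y e]
  · rw [mul_e_neg a r e, zero_mul]

theorem mem_eq_single (a b : Matrix Pt Pt F) (j : ι) (r p q : Pt) (hq : P.vt q = j)
    (h : ∀ y, P.vt y = j → y ≠ q → a r y * b y p = 0) :
    (a * P.e j * b) r p = a r q * b q p := by
  rw [Matrix.mul_apply, Finset.sum_eq_single q ?_ (by simp), mul_e_pos a r hq]
  intro y _ hy
  by_cases e : P.vt y = j
  · rw [mul_e_pos a r e, h y e hy]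
  · rw [mul_e_neg a r e, zero_mul]

theorem mem_mem {a b : Matrix Pt Pt F} (ha : a ∈ P.B) (hb : b ∈ P.B) (j : ι) :
    a * P.e j * b ∈ P.B := P.B.mul_mem (P.B.mul_mem ha (P.e_mem j)) hb

/-- A matrix with one zero diagonal entry is strictly triangular on the vertex. -/
theorem strict (hF : Flag P val ht) {s : Matrix Pt Pt F} (hs : s ∈ P.B) {x : Pt}
    (hx : P.vt x ∉ val) (h0 : s x x = 0) {y z : Pt} (hy : P.vt y = P.vt x) (hz : P.vt z = P.vt x)
    (h : s y z ≠ 0) : ht z < ht y := by
  have hz' : P.vt z ∉ val := hz ▸ hx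
  have h1 := hF.tri s hs y z (hy.trans hz.symm) hz' h
  rcases h1.lt_or_eq with h2 | h2
  · exact h2
  · have e := hF.inj z y (hz.trans hy.symm) hz' h2
    subst e
    exact (h ((hF.diag s hs z x hz hz').trans h0)).elim

theorem exists_min (S : Pt → Prop) (f : Pt → ℕ) (h : ∃ x, S x) :
    ∃ x, S x ∧ ∀ y, S y → f x ≤ f y := by
  classical
  obtain ⟨x, hx⟩ := h
  obtain ⟨m, hm, hmin⟩ := Finset.exists_min_image (Finset.univ.filter S) f ⟨x, by simp [hx]⟩
  exact ⟨m, (Finset.mem_filter.1 hm).2, fun y hy => hmin y (by simp [hy])⟩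

theorem exists_max (S : Pt → Prop) (f : Pt → ℕ) (h : ∃ x, S x) :
    ∃ x, S x ∧ ∀ y, S y → f y ≤ f x := by
  classical
  obtain ⟨x, hx⟩ := h
  obtain ⟨m, hm, hmax⟩ := Finset.exists_max_image (Finset.univ.filter S) f ⟨x, by simp [hx]⟩
  exact ⟨m, (Finset.mem_filter.1 hm).2, fun y hy => hmax y (by simp [hy])⟩

/-- The first nonzero entry of the column `p` on the vertex of `x` is at `x`. -/
def Lead (P : Prob k F Pt ι Unit) (ht : Pt → ℕ) (p x : Pt) : Prop :=
  ∃ b ∈ P.B, b x p ≠ 0 ∧ ∀ y, P.vt y = P.vt x → ht y < ht x → b y p = 0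

/-- The last nonzero entry of the row `r` on the vertex of `x` is at `x`. -/
def Trail (P : Prob k F Pt ι Unit) (ht : Pt → ℕ) (r x : Pt) : Prop :=
  ∃ b ∈ P.B, b r x ≠ 0 ∧ ∀ y, P.vt y = P.vt x → ht x < ht y → b r y = 0

theorem lead_up (hF : Flag P val ht) (p q : Pt) (hq : P.vt q ∉ val) :
    ∀ (n : ℕ) (x : Pt), P.vt x = P.vt q → ht x + n = ht q → Lead P ht p x → Lead P ht p q := by
  intro n
  induction n using Nat.strong_induction_on with
  | _ n ih =>
    intro x hx hn hL
    have hxv : P.vt x ∉ val := hx ▸ hq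
    rcases Nat.eq_zero_or_pos n with h0 | h0
    · have e : x = q := hF.inj x q hx hxv (by omega)
      exact e ▸ hL
    · obtain ⟨x', ⟨hx'v, hx'⟩, hmin⟩ := exists_min (fun y => P.vt y = P.vt q ∧ ht x < ht y) ht
        ⟨q, rfl, by omega⟩
      have hle : ht x' ≤ ht q := hmin q ⟨rfl, by omega⟩
      obtain ⟨b, hb, hb0, hbz⟩ := hL
      obtain ⟨s, hs, hs0, hsd⟩ := hF.step x x' (hx.trans hx'v.symm) hxv hx'
      refine ih (ht q - ht x') (by omega) x' hx'v (by omega)
        ⟨s * P.e (P.vt x) * b, mem_mem hs hb _, ?_, ?_⟩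
      · rw [mem_eq_single s b _ x' p x rfl]
        · exact mul_ne_zero hs0 hb0
        · intro y hy hne
          by_cases e : s x' y = 0
          · rw [e, zero_mul]
          · have h1 := strict hF hs hxv hsd (hx'v.trans hx.symm) hy e
            have h2 : ¬ ht x < ht y := fun h => by
              have := hmin y ⟨hy.trans hx, h⟩
              omega
            have h3 : ht y ≠ ht x := fun h => hne (hF.inj y x hy (hy ▸ hxv) h)
            rw [hbz y hy (by omega), mul_zero]
      · intro y hy hlt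
        refine mem_eq_zero s b _ y p fun z hz => ?_
        by_cases e : s y z = 0
        · rw [e, zero_mul]
        · have h1 := strict hF hs hxv hsd ((hy.trans hx'v).trans hx.symm) hz e
          have h2 : ¬ ht x < ht y := fun h => by
            have := hmin y ⟨hy.trans hx'v, h⟩
            omega
          rw [hbz z hz (by omega), mul_zero]

theorem trail_down (hF : Flag P val ht) (r q : Pt) (hq : P.vt q ∉ val) :
    ∀ (n : ℕ) (x : Pt), P.vt x = P.vt q → ht q + n = ht x → Trail P ht r x → Trail P ht r q := by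
  intro n
  induction n using Nat.strong_induction_on with
  | _ n ih =>
    intro x hx hn hL
    have hxv : P.vt x ∉ val := hx ▸ hq
    rcases Nat.eq_zero_or_pos n with h0 | h0
    · have e : x = q := hF.inj x q hx hxv (by omega)
      exact e ▸ hL
    · obtain ⟨x', ⟨hx'v, hx'⟩, hmax⟩ := exists_max (fun y => P.vt y = P.vt q ∧ ht y < ht x) ht
        ⟨q, rfl, by omega⟩
      have hle : ht q ≤ ht x' := hmax q ⟨rfl, by omega⟩
      have hx'x : P.vt x' = P.vt x := hx'v.trans hx.symm
      have hx'n : P.vt x' ∉ val := hx'v ▸ hq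
      obtain ⟨b, hb, hb0, hbz⟩ := hL
      obtain ⟨s, hs, hs0, hsd⟩ := hF.step x' x hx'x hx'n hx'
      refine ih (ht x' - ht q) (by omega) x' hx'v (by omega)
        ⟨b * P.e (P.vt x) * s, mem_mem hb hs _, ?_, ?_⟩
      · rw [mem_eq_single b s _ r x' x rfl]
        · exact mul_ne_zero hb0 hs0
        · intro y hy hne
          by_cases e : s y x' = 0
          · rw [e, mul_zero]
          · have h1 := strict hF hs hx'n hsd (hy.trans hx'x.symm) rfl e
            have h2 : ¬ ht y < ht x := fun h => by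
              have := hmax y ⟨hy.trans hx, h⟩
              omega
            have h3 : ht y ≠ ht x := fun h => hne (hF.inj y x hy (hy ▸ hxv) h)
            rw [hbz y hy (by omega), zero_mul]
      · intro y hy hlt
        refine mem_eq_zero b s _ r y fun z hz => ?_
        by_cases e : s z y = 0
        · rw [e, mul_zero]
        · have h1 := strict hF hs hx'n hsd (hz.trans hx'x.symm) hy e
          have h2 : ¬ ht y < ht x := fun h => by
            have := hmax y ⟨hy.trans hx'v, h⟩
            omega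
          rw [hbz z hz (by omega), zero_mul]

/-- The target of a nonzero entry can be moved up, with zeros before it. -/
theorem lead (hF : Flag P val ht) {b : Matrix Pt Pt F} (hb : b ∈ P.B) {p q q' : Pt}
    (hq : P.vt q ∉ val) (hv : P.vt q' = P.vt q) (hle : ht q' ≤ ht q) (h : b q' p ≠ 0) :
    Lead P ht p q := by
  obtain ⟨x, ⟨hxv, hx⟩, hmin⟩ := exists_min (fun y => P.vt y = P.vt q ∧ b y p ≠ 0) ht ⟨q', hv, h⟩
  have h1 := hmin q' ⟨hv, h⟩
  refine lead_up hF p q hq (ht q - ht x) x hxv (by omega) ⟨b, hb, hx, fun y hy hlt => ?_⟩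
  by_contra e
  have := hmin y ⟨hy.trans hxv, e⟩
  omega

/-- The source of a nonzero entry can be moved down, with zeros after it. -/
theorem trail (hF : Flag P val ht) {b : Matrix Pt Pt F} (hb : b ∈ P.B) {r q q' : Pt}
    (hq : P.vt q ∉ val) (hv : P.vt q' = P.vt q) (hle : ht q ≤ ht q') (h : b r q' ≠ 0) :
    Trail P ht r q := by
  obtain ⟨x, ⟨hxv, hx⟩, hmax⟩ := exists_max (fun y => P.vt y = P.vt q ∧ b r y ≠ 0) ht ⟨q', hv, h⟩
  have h1 := hmax q' ⟨hv, h⟩
  refine trail_down hF r q hq (ht x - ht q) x hxv (by omega) ⟨b, hb, hx, fun y hy hlt => ?_⟩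
  by_contra e
  have := hmax y ⟨hy.trans hxv, e⟩
  omega

theorem same (hF : Flag P val ht) (p q : Pt) (hv : P.vt p = P.vt q) (hp : P.vt p ∉ val) :
    P.Ar p q ↔ ht p < ht q := by
  constructor
  · rintro ⟨hne, b, hb, h⟩
    have h1 := hF.tri b hb q p hv.symm hp h
    have h2 : ht p ≠ ht q := fun e => hne (hF.inj p q hv hp e)
    omega
  · intro h
    obtain ⟨b, hb, h0, _⟩ := hF.step p q hv hp h
    exact ⟨fun e => by rw [e] at h; omega, b, hb, h0⟩

theorem pow_diag (hF : Flag P val ht) {M : Matrix Pt Pt F} (hM : M ∈ P.B) {p : Pt}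
    (hp : P.vt p ∉ val) (hs : ∀ x, M x p ≠ 0 → P.vt x = P.vt p) (n : ℕ) :
    (M ^ n) p p = M p p ^ n := by
  induction n with
  | zero => simp
  | succ n ih =>
    rw [pow_succ, Matrix.mul_apply, Finset.sum_eq_single p ?_ (by simp), ih, pow_succ]
    intro x _ hx
    by_contra e
    have h1 := left_ne_zero_of_mul e
    have h2 := right_ne_zero_of_mul e
    have hv := hs x h2
    have h3 := hF.tri M hM x p hv hp h2
    have h4 := hF.tri (M ^ n) (P.B.pow_mem hM n) p x hv.symm (hv ▸ hp) h1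
    exact hx (hF.inj x p hv (hv ▸ hp) (by omega))

end OrdA

open OrdA in
theorem ord : SOrd := by
  intro k F _ _ _ _ Pt ι _ _ P val ht hF
  refine ⟨same hF, fun p q r hp hq hr hpq hqr => ?_⟩
  obtain ⟨b1, hb1, h1⟩ := hpq.2
  obtain ⟨b2, hb2, h2⟩ := hqr.2
  obtain ⟨c1, hc1, hc1q, hc1z⟩ := lead hF hb1 hq rfl le_rfl h1
  obtain ⟨c2, hc2, hc2q, hc2z⟩ := trail hF hb2 hq rfl le_rfl h2
  have hz : ∀ y, P.vt y = P.vt q → y ≠ q → c2 r y * c1 y p = 0 := fun y hy hne => by
    have h3 : ht y ≠ ht q := fun e => hne (hF.inj y q hy (hy ▸ hq) e)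
    rcases lt_or_gt_of_ne h3 with h4 | h4
    · rw [hc1z y hy h4, mul_zero]
    · rw [hc2z y hy h4, zero_mul]
  refine ⟨fun e => ?_, c2 * P.e (P.vt q) * c1, mem_mem hc2 hc1 _, ?_⟩
  · subst e
    by_cases hv : P.vt p = P.vt q
    · have h3 := (same hF p q hv hp).1 hpq
      have h4 := (same hF q p hv.symm hq).1 hqr
      omega
    · have m1 := P.blk_mem hc1 (P.vt p) (P.vt q)
      have m2 := P.blk_mem hc2 (P.vt q) (P.vt p)
      obtain ⟨n, hn⟩ := hF.basic _ _ hv _ m1 _ m2
      have h5 := pow_diag hF (P.B.mul_mem m2.1 m1.1) hp (fun x hx => by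
        rw [Matrix.mul_apply] at hx
        obtain ⟨y, _, hy⟩ := Finset.exists_ne_zero_of_sum_ne_zero hx
        exact (m2.2 x y (left_ne_zero_of_mul hy)).2) n
      rw [hn] at h5
      have h6 : (P.blk (P.vt q) (P.vt p) c2 * P.blk (P.vt p) (P.vt q) c1) p p = c2 p q * c1 q p := by
        rw [Matrix.mul_apply, Finset.sum_eq_single q ?_ (by simp), P.blk_pos _ rfl rfl,
          P.blk_pos _ rfl rfl]
        intro y _ hy
        by_cases e : P.vt y = P.vt q
        · rw [P.blk_pos _ e rfl, P.blk_pos _ rfl e, hz y e hy]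
        · rw [P.blk_neg _ fun h => e h.1, zero_mul]
      rw [h6] at h5
      exact pow_ne_zero n (mul_ne_zero hc2q hc1q) h5.symm
  · rw [mem_eq_single c2 c1 _ r p q rfl hz]
    exact mul_ne_zero hc2q hc1q

end Pool.Agent.MP_bd94e8_al.H89
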